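import Pool.Agent.X142.AZ.Ind
import Pool.Agent.X255.RH.Loc
import Pool.Agent.X255.RH.Mea3

/-!
# `ζ (z)` and `ζ (2 z)` at almost all algebraic numbers `z`, jointly for all conjugates

The problem asks whether `ζ(2 n) / ζ(n) ^ 2` is irrational for odd `n`. For 100% of the integral polynomials of degree `g`,
ordered by the maximum `T` of the absolute values of the coefficients, we prove that the numbers `ζ (z)`, `ζ (2 z)`, `z` ALL
roots of the polynomial different from `1` and `1 / 2`, satisfy no relation whose degree, and the degree of whose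
coefficient field, is at most `ω (T)`, and whose coefficients are of size at most `T ^ ω (T)`, where `ω (T) → ∞` (the
coefficients may also contain arbitrary fixed complex numbers); in particular `ζ (2 z) / ζ (z) ^ 2` is not an algebraic
number of degree at most `ω (T)` and height at most `T ^ ω (T)`. We also prove lower bounds for polynomials of bounded
degree in these numbers, with arbitrary complex coefficients. The hand-in `RationalArguments` (helper142) is about the
points of number fields of bounded degree, with coefficients in the same field.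

Proof: `Pool.Agent.X255.NP` and `Pool.Agent.Y890.MV` (nonstandard versions of the Bombieri-Pila method), the algebraic
independence over `ℂ(z)` of the functions (`Pool.Agent.X142.AZ`), and `Pool.Agent.X255.RH` (independence of functions of
different variables; almost no integral polynomial has close roots).
-/

set_option autoImplicit false

open Polynomial Filter NumberField
open scoped Classical

namespace Pool.Agent.Results.MP_f1a024_nt.ConjugateArguments

/-- the numbers `ζ (z)` and `ζ (2 z)` -/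
noncomputable def value (z : ℂ) : Fin 2 → ℂ
  | 0 => riemannZeta z
  | 1 => riemannZeta (2 * z)

/-- the polynomial `a_g X ^ g + … + a_0` -/
noncomputable def poly {g : ℕ} (a : Fin (g + 1) → ℤ) : ℂ[X] := ∑ i, C (a i : ℂ) * X ^ (i : ℕ)

/-- the roots of the polynomial in the set `V` -/
noncomputable def rootsIn (V : Set ℂ) {g : ℕ} (a : Fin (g + 1) → ℤ) : Finset ℂ :=
  (poly a).roots.toFinset.filter fun z => z ∈ V

/-- The numbers `x q`, `q ∈ Q`, satisfy no relation of degree at most `k` in each of them with coefficients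
`∑ ξ b * c b`, `b < k`, where the `c b` are integers of a number field of degree at most `k`, all of whose conjugates
are of absolute value at most `T ^ k`, except the relations all of whose coefficients vanish. -/
def Unrelated {Q : Type} [Fintype Q] [DecidableEq Q] (ξ : ℕ → ℂ) (k : ℕ) (T : ℝ) (x : Q → ℂ) : Prop :=
  ∀ (F : Type) [Field F] [NumberField F], Module.finrank ℚ F ≤ k → ∀ (io : F →+* ℂ)
    (c : (Q → Fin (k + 1)) → Fin k → 𝓞 F), (∀ l b (φ : F →+* ℂ), ‖φ (c l b : F)‖ ≤ T ^ k) →
    ∑ l, (∑ b : Fin k, ξ b * io (c l b : F)) * ∏ q, x q ^ (l q : ℕ) = 0 → ∀ l, ∑ b : Fin k, ξ b * io (c l b : F) = 0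

/-- Every polynomial `P` of degree at most `k` in each of the numbers `x q`, with coefficients `∑ ξ b * c b`, `b < k`,
where the `c b` are rational integers of absolute value at most `T ^ k`, satisfies `|P (x)| ≥ T ^ (-B) |p|` for each of
its coefficients `p`. -/
def Measure {Q : Type} [Fintype Q] [DecidableEq Q] (ξ : ℕ → ℂ) (k : ℕ) (B T : ℝ) (x : Q → ℂ) : Prop :=
  ∀ c : (Q → Fin (k + 1)) → Fin k → ℤ, (∀ l b, |(c l b : ℝ)| ≤ T ^ k) → ∀ l₀,
    T ^ (-B) * ‖∑ b : Fin k, ξ b * (c l₀ b : ℂ)‖ ≤
      ‖∑ l, (∑ b : Fin k, ξ b * (c l b : ℂ)) * ∏ q, x q ^ (l q : ℕ)‖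

/-- the `a` with `|a_i| ≤ T` -/
noncomputable def box (g T : ℕ) : Finset (Fin (g + 1) → ℤ) := Fintype.piFinset fun _ => Finset.Icc (-(T : ℤ)) T

/-- the numbers `ζ (z)` and `ζ (2 z)`, `z` all roots of `a` different from `1` and `1 / 2` -/
noncomputable def numbers {g : ℕ} (a : Fin (g + 1) → ℤ) (q : {z // z ∈ rootsIn {1, 1 / 2}ᶜ a} × Fin 2) : ℂ :=
  value q.1 q.2

/-- `a` is of degree `g`, with simple roots, and the numbers are unrelated -/
def Good {g : ℕ}  (ξ : ℕ → ℂ) (k : ℕ) (T : ℝ) (a : Fin (g + 1) → ℤ) : Prop :=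
  a (Fin.last g) ≠ 0 ∧ (poly a).Separable ∧ Unrelated ξ k T (numbers  a)

/-- `a` is of degree `g`, with simple roots, and the numbers satisfy the lower bounds -/
def GoodM {g : ℕ}  (ξ : ℕ → ℂ) (k : ℕ) (B T : ℝ) (a : Fin (g + 1) → ℤ) : Prop :=
  a (Fin.last g) ≠ 0 ∧ (poly a).Separable ∧ Measure ξ k B T (numbers  a)

/-- `a` is of degree `g`, its roots are simple, of absolute value at most `R`, at distance at least `η` from each other,
and the roots in `V` are at distance at least `η` from the complement of `V` -/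
def Position (V : Set ℂ) (R η : ℝ) {g : ℕ} (a : Fin (g + 1) → ℤ) : Prop :=
  a (Fin.last g) ≠ 0 ∧ (poly a).Separable ∧ ∀ z, (poly a).eval z = 0 → ‖z‖ ≤ R ∧
    (∀ w, (poly a).eval w = 0 → w ≠ z → η ≤ ‖z - w‖) ∧ (z ∈ V → Metric.ball z η ⊆ V)


/-- **Theorem.** Let `g ≥ 1`.
(1) For every sequence `ξ` there is a monotone `ω`, `ω(T) → ∞`, such that the proportion of the polynomials with
`|a_i| ≤ T` which are not `Good` with `k = ω(T)` is at most `1 / ω(T)`.
(2) For every `k ≥ 1` there are `B` and `T₀` such that for `T ≥ T₀` and all `ξ` (which may depend on `T`) the proportion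
of the polynomials with `|a_i| ≤ T` which are not `GoodM` is at most `1 / k`.
(3) For fixed `k ≥ 1`, `R`, `η > 0` and `ε > 0` there are `B`, `C` such that for all `ξ` the lower bounds
`Measure ξ k B T` hold for all but `C T ^ (g + ε)` of the polynomials with `|a_i| ≤ T` whose roots are in the compact
position `Position {1, 1 / 2}ᶜ R η` (there are about `(2 T) ^ (g + 1)` polynomials). -/
theorem result (g : ℕ) (hg : 0 < g)  :
    (∀ ξ : ℕ → ℂ, ∃ ω : ℕ → ℕ, Tendsto ω atTop atTop ∧ Monotone ω ∧ ∀ T,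
      ω T * ((box g T).filter fun a => ¬ Good  ξ (ω T) T a).card ≤ (box g T).card) ∧
    (∀ k : ℕ, 1 ≤ k → ∃ (B : ℝ) (T₀ : ℕ), ∀ T : ℕ, T₀ ≤ T → ∀ ξ : ℕ → ℂ,
      (k : ℝ) * ((box g T).filter fun a => ¬ GoodM  ξ k B T a).card ≤ (box g T).card) ∧
    (∀ (k : ℕ) (R η ε : ℝ), 1 ≤ k → 0 < η → 0 < ε → ∃ B C : ℝ, ∀ T : ℕ, 1 ≤ T → ∀ ξ : ℕ → ℂ,
      (((box g T).filter fun a => Position {1, 1 / 2}ᶜ R η a ∧ ¬ Measure ξ k B T (numbers  a)).card : ℝ) ≤
        C * (T : ℝ) ^ ((g : ℝ) + ε)) := by
  have hfin : ({1, 1 / 2} : Set ℂ).Finite := (Set.finite_singleton _).insert _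
  have hop : IsOpen ({1, 1 / 2}ᶜ : Set ℂ) := hfin.isClosed.isOpen_compl
  have hpre : IsPreconnected ({1, 1 / 2}ᶜ : Set ℂ) := by
    have h1 := hfin.countable.isPathConnected_compl_of_one_lt_rank (by
      rw [Complex.rank_real_complex]
      norm_num)
    exact h1.isConnected.isPreconnected
  have hmem : ∀ z : ℂ, z ∈ ({1, 1 / 2} : Set ℂ)ᶜ → z ≠ 1 ∧ 2 * z ≠ 1 := by
    intro z hz
    rw [Set.mem_compl_iff, Set.mem_insert_iff, Set.mem_singleton_iff, not_or] at hz
    refine ⟨hz.1, fun h => hz.2 ?_⟩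
    rw [eq_div_iff two_ne_zero, mul_comm]
    exact h
  have hne : ({1, 1 / 2}ᶜ : Set ℂ).Nonempty := ⟨0, by simp⟩
  have htame : Pool.Agent.X255.RH.Tame {1, 1 / 2}ᶜ {1, 1 / 2}ᶜ :=
    Pool.Agent.X255.RH.tame_of_discrete fun R => hfin.inter_of_left _
  have hval : (fun w z => value z w) = Pool.Agent.X142.AZ.fB := by
    funext w z
    fin_cases w <;> rfl
  have han : ∀ w : Fin 2, AnalyticOnNhd ℂ (fun z => value z w) {1, 1 / 2}ᶜ := by
    intro w z hz
    have h1 := Pool.Agent.X142.AZ.fB_analytic w (hmem z hz).1 (hmem z hz).2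
    rw [← congrFun hval w] at h1
    exact h1
  have hind : Pool.Agent.X255.RH.Indep {1, 1 / 2}ᶜ (fun w z => value z w) := by
    rw [hval]
    exact Pool.Agent.X255.RH.indep_of_loc hop hne fun t ht =>
      Pool.Agent.X142.AZ.locIndB t (hmem t ht).1 (hmem t ht).2
  refine ⟨fun ξ => ?_, fun k hk => ?_, fun k R η ε hk hη hε => ?_⟩
  · exact Pool.Agent.X255.RH.main_all (g := g) hg hpre hop (fun _ => {1, 1 / 2}ᶜ) (fun _ => htame) han hind ξ
  · exact Pool.Agent.X255.RH.mea_all (g := g) hg hpre hop htame han hind k hk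
  · exact Pool.Agent.X255.RH.mea_eps (g := g) hg hpre hop han hind {1, 1 / 2}ᶜ k R η ε hη hε

end Pool.Agent.Results.MP_f1a024_nt.ConjugateArguments
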