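import Pool.Agent.X110.LP5

/-!
# The first digits of `1 - ζ(2n) / ζ(n) ^ 2` for large `n`

The linear complexity `N` of the first `L` digits of a number in base `a` is the least order of a linear
recurrence over `ℚ` which they satisfy. For every `A` and all large `n` (for example odd `n`) it is shown
that for `L ≤ A n` the first `L` digits of `1 - ζ(2n) / ζ(n) ^ 2` have the linear complexity
`max (n log 2 / log a, L / 2) + o(n)`, that is `L / 2 + o(n)` for `L ≥ 2 n log 2 / log a`. (This number is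
about `2 ^ (1 - n)`, so its first `n log 2 / log a - 1` digits vanish.)

The proof: `Pool/Agent/X110/LP1.lean` to `LP5.lean`, on the basis of Roth's theorem for Dirichlet series
(`Pool/Agent/Y760/RT/`) and of the approximations from short relations between digits
(`Pool/Agent/Y928/PL/Core.lean`) in the starting files.
-/

set_option autoImplicit false

namespace Pool.Agent.Results.MP_f1a024_nt.DigitProfile

open Finset

/-- the `i`-th digit of `x` after the point in base `a` -/
noncomputable def digit (a : ℕ) (x : ℝ) (i : ℕ) : ℤ := ⌊x * (a : ℝ) ^ i⌋ % (a : ℤ)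

/-- The terms `s_1, …, s_L` satisfy the linear recurrence
`s_(i+m) = c_0 s_i + … + c_(m-1) s_(i+m-1)` for `1 ≤ i ≤ L - m`. -/
def Recurrence (s : ℕ → ℤ) (c : ℕ → ℚ) (L m : ℕ) : Prop :=
  ∀ i : ℕ, 1 ≤ i → i + m ≤ L → (s (i + m) : ℚ) = ∑ j ∈ range m, c j * (s (i + j) : ℚ)

/-- the linear complexity of the first `L` digits of `x` in base `a` -/
noncomputable def complexity (a : ℕ) (x : ℝ) (L : ℕ) : ℕ :=
  sInf {m | ∃ c : ℕ → ℚ, Recurrence (digit a x) c L m}

/-- `ζ(n) = ∑ 1/(k+1)^n` -/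
noncomputable def zeta (n : ℕ) : ℝ := ∑' k : ℕ, 1 / ((k : ℝ) + 1) ^ n

/-- `t(n) = ζ(2n) / ζ(n) ^ 2` -/
noncomputable def t (n : ℕ) : ℝ := zeta (2 * n) / zeta n ^ 2

/-- Let `a ≥ 2` be a base, `A` real and `ε > 0`. For all sufficiently large `n` and all `L ≤ A n`: the
linear complexity of the first `L` digits of `1 - ζ(2n) / ζ(n) ^ 2` in base `a` is `0` if `16 a^L ≤ 2^n`, and
it differs from `max (n log 2 / log a, L / 2)` by at most `ε n` if `2^n ≤ a^L`. -/
theorem result (a : ℕ) (ha : 2 ≤ a) (A ε : ℝ) (hε : 0 < ε) :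
    ∃ n0 : ℕ, ∀ n : ℕ, n0 ≤ n → ∀ L : ℕ, (L : ℝ) ≤ A * n →
      (16 * (a : ℝ) ^ L ≤ 2 ^ n → complexity a (1 - t n) L = 0) ∧
      ((2 : ℝ) ^ n ≤ (a : ℝ) ^ L →
        |(complexity a (1 - t n) L : ℝ) - max (n * Real.log 2 / Real.log a) ((L : ℝ) / 2)| ≤ ε * n) :=
  Pool.Agent.X110.LP.t_profile a ha A ε hε

end Pool.Agent.Results.MP_f1a024_nt.DigitProfile
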