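import Mathlib
import Pool.Agent.X142.AZ.Ratio
import Pool.Agent.X142.AZ.FewMv

/-!
# `ζ(2n, x) / ζ(n, x) ^ 2` at almost all rational `x`, jointly for all `n` up to a bound

The numbers `ζ(2n) / ζ(n) ^ 2` of the problem are the values at `x = 1` of the functions
`t(n, x) = ζ(2n, x) / ζ(n, x) ^ 2`, with Hurwitz zeta values `ζ(k, x) = ∑_{m ≥ 0} (m + x)^(-k)`. We prove that
for all but very few rational numbers `x` the numbers `t(2, x)`, …, `t(M + 1, x)`, also divided by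
arbitrary numbers, satisfy no polynomial relation of bounded degree and height at most a power of the
height of `x`, not even approximately (in particular none of them is rational of such a height), and the
analogous result for almost all tuples of elements of a number field. The main new point is that these
functions are algebraically independent over `ℂ(z)`.
-/

set_option autoImplicit false

open NumberField

namespace Pool.Agent.Results.MP_f1a024_nt.HurwitzArguments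

/-- The Hurwitz zeta value `ζ(k, z) = ∑_{n ≥ 0} 1 / (z + n) ^ k`; `ζ(k, 1) = ζ(k)`. -/
noncomputable def hurwitz (k : ℕ) (z : ℂ) : ℂ := ∑' n : ℕ, ((z + n) ^ k)⁻¹

/-- `t(n, z) = ζ(2 n, z) / ζ(n, z) ^ 2`. -/
noncomputable def t (n : ℕ) (z : ℂ) : ℂ := hurwitz (2 * n) z / hurwitz n z ^ 2

/-- `x = a / c` with integers `a`, `c` of the number field `F`, all of whose conjugates have absolute
value at most `T`. -/
def HeightLe (F : Type) [Field F] [NumberField F] (T : ℝ) (x : F) : Prop :=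
  ∃ a c : 𝓞 F, c ≠ 0 ∧ (∀ φ : F →+* ℂ, ‖φ a‖ ≤ T ∧ ‖φ c‖ ≤ T) ∧ x = a / c

/-- The `N`-tuples `s` of elements of the finite set `X` for which there is a polynomial `P` in `N M`
variables, of degree at most `d` in each of them, with coefficients of the form `∑ ξ_i ι(c_i)`, where
the `c_i` are integers of `F` all of whose conjugates have absolute value at most `T ^ A`, such that
the value of `P` at the numbers `t(j + 2, s_l)`, `j < M`, `l < N`, is at most `T ^ (-B)` times the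
absolute value of some nonzero coefficient of `P`. -/
def Exceptional {g : ℕ} (M N d : ℕ) (F : Type) [Field F] [NumberField F] (ι : F →+* ℂ) (ξ : Fin g → ℂ)
    (X : Finset F) (A B T : ℝ) : Set (Fin N → F) :=
  {s | (∀ l, s l ∈ X) ∧ ∃ P : MvPolynomial (Fin N × Fin M) ℂ, (∀ x, P.degreeOf x ≤ d) ∧
    (∀ u, ∃ c : Fin g → 𝓞 F, (∀ i (φ : F →+* ℂ), ‖φ (c i)‖ ≤ T ^ A) ∧ P.coeff u = ∑ i, ξ i * ι (c i)) ∧
    ∃ u₀, P.coeff u₀ ≠ 0 ∧
      ‖MvPolynomial.aeval (fun x : Fin N × Fin M => t ((x.2 : ℕ) + 2) (ι (s x.1))) P‖ ≤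
        T ^ (-B) * ‖P.coeff u₀‖}

/-- (1) `ζ(n, x) ≠ 0` for all real `x > 0` and integers `n ≥ 2`.
Let `L` be a compact set of complex numbers without the points `0, -1, -2, …` and without zeros of
`ζ(n, z)`, `2 ≤ n ≤ M + 1`; by (1) it may be any compact set of positive real numbers. Let `A`, `ε > 0`
be real.
(2) For all `m` and `c` there are `B`, `C`, `T₀` such that for all `T ≥ T₀` and all complex numbers
`ξ_0, …, ξ_(M-1) ≠ 0` of absolute value at most `T ^ c` (for instance `1`) there are at most `C T ^ ε`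
rational numbers `x` in `L` with numerator and denominator at most `T` in absolute value such that
`|Q(t(2, x) / ξ_0, …, t(M + 1, x) / ξ_(M-1))| ≤ T ^ (-B)` for some nonzero polynomial `Q` with integer
coefficients of absolute value at most `T ^ A`, of degree at most `m` in each variable.
(3) For all `m`, `N`, `g`, `d` there are `B`, `C`, `T₀` such that for every number field `F` of degree at
most `m`, every embedding `ι`, all complex numbers `ξ_1, …, ξ_g`, all `T ≥ T₀` and every finite set `X` of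
elements of `F` in `L` of height at most `T` there are at most `C T ^ ε |X| ^ (N - 1)` exceptional
`N`-tuples of elements of `X`. -/
theorem result :
    (∀ n : ℕ, 2 ≤ n → ∀ x : ℝ, 0 < x → hurwitz n (x : ℂ) ≠ 0) ∧
    ∀ (M : ℕ) (L : Set ℂ), IsCompact L → (∀ z ∈ L, ∀ n : ℕ, z ≠ -n) →
      (∀ z ∈ L, ∀ n : ℕ, 2 ≤ n → n ≤ M + 1 → hurwitz n z ≠ 0) → ∀ A ε : ℝ, 0 < ε →
      (∀ (m : ℕ) (c : ℝ), ∃ B C T₀ : ℝ, ∀ T : ℝ, T₀ ≤ T → ∀ ξ : Fin M → ℂ, (∀ i, ξ i ≠ 0) →
        (∀ i, ‖ξ i‖ ≤ T ^ c) →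
        (({x : ℚ | (x : ℂ) ∈ L ∧ |(x.num : ℝ)| ≤ T ∧ (x.den : ℝ) ≤ T ∧
          ∃ Q : MvPolynomial (Fin M) ℤ, Q ≠ 0 ∧ (∀ i, Q.degreeOf i ≤ m) ∧
            (∀ s, |((Q.coeff s : ℤ) : ℝ)| ≤ T ^ A) ∧
            ‖MvPolynomial.aeval (fun i : Fin M => t ((i : ℕ) + 2) x / ξ i) Q‖ ≤ T ^ (-B)}.ncard : ℕ) : ℝ) ≤
          C * T ^ ε) ∧
      ∀ m N g d : ℕ, ∃ B C T₀ : ℝ,
        ∀ (F : Type) [Field F] [NumberField F], Module.finrank ℚ F ≤ m → ∀ (ι : F →+* ℂ) (ξ : Fin g → ℂ)
          (T : ℝ), T₀ ≤ T → ∀ X : Finset F, (∀ x ∈ X, ι x ∈ L ∧ HeightLe F T x) →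
            ((Exceptional M N d F ι ξ X A B T).ncard : ℝ) ≤ C * T ^ ε * (X.card : ℝ) ^ (N - 1) := by
  classical
  refine ⟨fun n hn x hx => Pool.Agent.X142.AZ.hz_pos_ne hn hx,
    fun M L hL hL0 hL1 A ε hε => ⟨fun m c => ?_, fun m N g d => ?_⟩⟩
  · obtain ⟨B, C, T₀, hT₀, H⟩ := Pool.Agent.X142.AZ.fewMv
      (fun j : Fin M => Pool.Agent.X142.AZ.tt j) L hL
      (fun y z hz => Pool.Agent.X142.AZ.tt_analytic (hL0 z hz)
        (hL1 z hz ((y : ℕ) + 2) (by omega) (by have := y.2; omega)))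
      (fun z hz => Pool.Agent.X142.AZ.locIndT M (hL0 z hz)
        (fun j => hL1 z hz ((j : ℕ) + 2) (by omega) (by have := j.2; omega))) m A c ε hε
    exact ⟨B, C, T₀, fun T hT ξ hξ0 hξ => H T hT ξ hξ0 hξ⟩
  · obtain ⟨B, C, T₀, -, -, H⟩ := Pool.Agent.Y771.RP.mainS m N g d
      (fun j : Fin M => Pool.Agent.X142.AZ.tt j) L hL
      (fun y z hz => Pool.Agent.X142.AZ.tt_analytic (hL0 z hz)
        (hL1 z hz ((y : ℕ) + 2) (by omega) (by have := y.2; omega)))
      (fun z hz => Pool.Agent.X142.AZ.locIndT M (hL0 z hz)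
        (fun j => hL1 z hz ((j : ℕ) + 2) (by omega) (by have := j.2; omega))) A ε hε
    refine ⟨B, C, T₀, fun F _ _ hF ι ξ T hT X hX => ?_⟩
    have h1 := H F hF ι ξ T hT X (fun x hx => ⟨(hX x hx).1, (hX x hx).2⟩)
    refine le_trans (le_of_eq ?_) h1
    congr 2
    ext s
    constructor
    · rintro ⟨hX', P, hP1, hP2, u₀, hu₀, hu⟩
      exact ⟨⟨fun j => ⟨(hX _ (hX' j)).1, (hX _ (hX' j)).2⟩, P, hP1, hP2, u₀, hu₀, hu⟩, hX'⟩
    · rintro ⟨⟨-, P, hP1, hP2, u₀, hu₀, hu⟩, hX'⟩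
      exact ⟨hX', P, hP1, hP2, u₀, hu₀, hu⟩

end Pool.Agent.Results.MP_f1a024_nt.HurwitzArguments
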