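import Mathlib
import Pool.Agent.X142.AZ.Ind
import Pool.Agent.X142.AZ.Few
import Pool.Agent.X142.DN.Int

/-!
# `ζ(2s) / ζ(s) ^ 2` at almost all rational and algebraic numbers `s`

The numbers of the problem are the values at the odd integers `s > 1` of the function
`t(s) = ζ(2s) / ζ(s) ^ 2`. We prove that for all but very few rational numbers `x > 1` the number `t(x)`
is not rational, and not close to a rational or algebraic number of bounded degree and of height at most
a power of the height of `x`, also after multiplication by an arbitrary number; and that for almost all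
tuples of elements `t_l` of a number field the numbers `ζ(t_l)`, `ζ(2 t_l)` satisfy no polynomial
relation of bounded complexity, even approximately.
-/

set_option autoImplicit false

open NumberField

namespace Pool.Agent.Results.MP_f1a024_nt.RationalArguments

/-- `t(s) = ζ(2s) / ζ(s) ^ 2` -/
noncomputable def t (s : ℂ) : ℂ := riemannZeta (2 * s) / riemannZeta s ^ 2

/-- A nonzero polynomial with integer coefficients, of degree at most `m` and with coefficients of
absolute value at most `H`, has absolute value at most `η` at `y`. -/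
def NearAlg (m : ℕ) (H η : ℝ) (y : ℂ) : Prop :=
  ∃ Q : Polynomial ℤ, Q ≠ 0 ∧ Q.natDegree ≤ m ∧ (∀ i, |(Q.coeff i : ℝ)| ≤ H) ∧
    ‖Polynomial.aeval y Q‖ ≤ η

/-- The functions `ζ(z)` and `ζ(2z)`. -/
noncomputable def value : Fin 2 → ℂ → ℂ
  | 0 => riemannZeta
  | 1 => fun z => riemannZeta (2 * z)

/-- `x = a / c` with integers `a`, `c` of the number field `F`, all of whose conjugates have absolute
value at most `T`. -/
def HeightLe (F : Type) [Field F] [NumberField F] (T : ℝ) (x : F) : Prop :=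
  ∃ a c : 𝓞 F, c ≠ 0 ∧ (∀ φ : F →+* ℂ, ‖φ a‖ ≤ T ∧ ‖φ c‖ ≤ T) ∧ x = a / c

/-- The `N`-tuples `s` of elements of the finite set `X` for which there is a polynomial `P` in `2 N`
variables, of degree at most `d` in each of them, with coefficients of the form `∑ ξ_i ι(c_i)`, where
the `c_i` are integers of `F` all of whose conjugates have absolute value at most `T ^ A`, such that
the value of `P` at the numbers `ζ(s_l)`, `ζ(2 s_l)`, `l < N`, is at most `T ^ (-B)` times the
absolute value of some nonzero coefficient of `P`. -/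
def Exceptional {g : ℕ} (N d : ℕ) (F : Type) [Field F] [NumberField F] (ι : F →+* ℂ) (ξ : Fin g → ℂ)
    (X : Finset F) (A B T : ℝ) : Set (Fin N → F) :=
  {s | (∀ l, s l ∈ X) ∧ ∃ P : MvPolynomial (Fin N × Fin 2) ℂ, (∀ x, P.degreeOf x ≤ d) ∧
    (∀ u, ∃ c : Fin g → 𝓞 F, (∀ i (φ : F →+* ℂ), ‖φ (c i)‖ ≤ T ^ A) ∧ P.coeff u = ∑ i, ξ i * ι (c i)) ∧
    ∃ u₀, P.coeff u₀ ≠ 0 ∧
      ‖MvPolynomial.aeval (fun x : Fin N × Fin 2 => value x.2 (ι (s x.1))) P‖ ≤
        T ^ (-B) * ‖P.coeff u₀‖}

lemma value_eq : value = Pool.Agent.X142.AZ.fB := by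
  funext y
  fin_cases y <;> rfl

/-- Let `A`, `ε > 0` be real.
(1) Let `L` be a compact subset of the half plane `Re z > 1`. For all `m` and `c` there are `B`, `C`,
`T₀` such that for all `T ≥ T₀` and all complex `ξ ≠ 0` with `|ξ| ≤ T ^ c` (for instance `ξ = 1`) there
are at most `C T ^ ε` rational numbers `x` in `L` with numerator and denominator at most `T` in absolute
value such that `|Q(t(x) / ξ)| ≤ T ^ (-B)` for some nonzero `Q ∈ ℤ[X]` of degree at most `m` with
coefficients of absolute value at most `T ^ A`.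
(2) Let `L` be a compact subset of `ℂ` containing neither `1` nor `1/2`. For all `m`, `N`, `g`, `d`
there are `B`, `C`, `T₀` such that for every number field `F` of degree at most `m`, every embedding
`ι`, all complex numbers `ξ_1, …, ξ_g`, all `T ≥ T₀` and every finite set `X` of elements of `F` in `L`
of height at most `T` there are at most `C T ^ ε |X| ^ (N - 1)` exceptional `N`-tuples of elements of
`X`. -/
theorem result (A ε : ℝ) (hε : 0 < ε) :
    (∀ L : Set ℂ, IsCompact L → (∀ z ∈ L, 1 < z.re) →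
      ∀ (m : ℕ) (c : ℝ), ∃ B C T₀ : ℝ, ∀ T : ℝ, T₀ ≤ T → ∀ ξ : ℂ, ξ ≠ 0 → ‖ξ‖ ≤ T ^ c →
        (({x : ℚ | (x : ℂ) ∈ L ∧ |(x.num : ℝ)| ≤ T ∧ (x.den : ℝ) ≤ T ∧
          NearAlg m (T ^ A) (T ^ (-B)) (t x / ξ)}.ncard : ℕ) : ℝ) ≤ C * T ^ ε) ∧
    ∀ L : Set ℂ, IsCompact L → (1 : ℂ) ∉ L → (1 / 2 : ℂ) ∉ L → ∀ m N g d : ℕ, ∃ B C T₀ : ℝ,
      ∀ (F : Type) [Field F] [NumberField F], Module.finrank ℚ F ≤ m → ∀ (ι : F →+* ℂ) (ξ : Fin g → ℂ) (T : ℝ),
        T₀ ≤ T → ∀ X : Finset F, (∀ x ∈ X, ι x ∈ L ∧ HeightLe F T x) →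
          ((Exceptional N d F ι ξ X A B T).ncard : ℝ) ≤ C * T ^ ε * (X.card : ℝ) ^ (N - 1) := by
  classical
  refine ⟨fun L hL hL1 m c => ?_, fun L hL hL1 hL2 m N g d => ?_⟩
  · have hne : ∀ z ∈ L, z ≠ 1 := by
      rintro z hz rfl
      have := hL1 1 hz
      simp at this
    have hne2 : ∀ z ∈ L, 2 * z ≠ 1 := by
      intro z hz h
      have h1 := hL1 z hz
      have h2 := congrArg Complex.re h
      simp at h2
      linarith
    obtain ⟨B, C, T₀, hT₀, hC, H⟩ := Pool.Agent.X142.AZ.few Pool.Agent.X142.AZ.fB L hL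
      (fun y z hz => Pool.Agent.X142.AZ.fB_analytic y (hne z hz) (hne2 z hz))
      (fun z hz => Pool.Agent.X142.AZ.locIndB z (hne z hz) (hne2 z hz)) m (2 * m)
      (fun i => ![2 * (m - i), (i : ℕ)]) (by
        intro i j h
        have := congrFun h 1
        simp only [Matrix.cons_val_one] at this
        exact Fin.ext this)
      (by
        intro i y
        have hi : (i : ℕ) ≤ m := Nat.lt_succ_iff.1 i.2
        fin_cases y
        · simp only [Fin.zero_eta, Matrix.cons_val_zero]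
          omega
        · show (i : ℕ) ≤ 2 * m
          omega)
      A (|c| * m) ε hε
    -- a bound for `ζ(z)`
    have hcont : ContinuousOn riemannZeta L := fun z hz =>
      (Pool.Agent.X142.AZ.fB_analytic 0 (hne z hz) (hne2 z hz)).continuousAt.continuousWithinAt
    obtain ⟨M, hM⟩ := hL.exists_bound_of_continuousOn hcont
    refine ⟨B + 1, C, max T₀ (|M| ^ (2 * m)), fun T hT ξ hξ0 hξ => ?_⟩
    have hTT₀ : T₀ ≤ T := (le_max_left _ _).trans hT
    have hT2 : 2 ≤ T := hT₀.trans hTT₀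
    have hT0 : 0 < T := by linarith
    have hTM : |M| ^ (2 * m) ≤ T := (le_max_right _ _).trans hT
    refine Pool.Agent.X142.DN.ncard_le (by positivity) fun S hS => ?_
    refine H T hTT₀ (fun i => (ξ ^ (i : ℕ))⁻¹) ?_ S fun x hx => ?_
    · intro i
      rw [norm_inv, norm_pow, Real.rpow_neg hT0.le]
      have hi : (i : ℕ) ≤ m := Nat.lt_succ_iff.1 i.2
      apply inv_anti₀ (pow_pos (norm_pos_iff.2 hξ0) _)
      have h1 : ‖ξ‖ ≤ T ^ |c| := hξ.trans (Real.rpow_le_rpow_of_exponent_le (by linarith) (le_abs_self c))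
      have h2 : 1 ≤ T ^ |c| := Real.one_le_rpow (by linarith) (abs_nonneg c)
      calc ‖ξ‖ ^ (i : ℕ) ≤ (T ^ |c|) ^ (i : ℕ) := pow_le_pow_left₀ (norm_nonneg _) h1 _
        _ ≤ (T ^ |c|) ^ m := pow_le_pow_right₀ h2 hi
        _ = T ^ (|c| * m) := by rw [← Real.rpow_natCast, ← Real.rpow_mul hT0.le]
    · obtain ⟨hxL, hxn, hxd, Q, hQ0, hQm, hQA, hQs⟩ := hS x hx
      refine ⟨hxL, hxn, hxd, fun i => Q.coeff i, ?_, fun i => hQA i, ?_⟩
      · intro h
        apply hQ0
        ext i
        rcases Nat.lt_or_ge i (m + 1) with hi | hi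
        · have := congrFun h ⟨i, hi⟩
          simpa using this
        · rw [Polynomial.coeff_eq_zero_of_natDegree_lt (by omega), Polynomial.coeff_zero]
      · have hz0 : riemannZeta (x : ℂ) ≠ 0 :=
          riemannZeta_ne_zero_of_one_lt_re (hL1 _ hxL)
        have key : ∑ i : Fin (m + 1), (ξ ^ (i : ℕ))⁻¹ * (Q.coeff i : ℂ) *
            ∏ y, Pool.Agent.X142.AZ.fB y x ^ (![2 * (m - i), (i : ℕ)] : Fin 2 → ℕ) y =
            riemannZeta x ^ (2 * m) * Polynomial.aeval (t x / ξ) Q := by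
          rw [Polynomial.aeval_eq_sum_range' (Nat.lt_succ_of_le hQm), Finset.mul_sum,
            ← Fin.sum_univ_eq_sum_range (fun i => riemannZeta x ^ (2 * m) *
              (Q.coeff i • (t x / ξ) ^ i)) (m + 1)]
          refine Finset.sum_congr rfl fun i _ => ?_
          have hi : (i : ℕ) ≤ m := Nat.lt_succ_iff.1 i.2
          rw [Fin.prod_univ_two]
          simp only [Matrix.cons_val_zero, Matrix.cons_val_one, Pool.Agent.X142.AZ.fB, t]
          have e1 : riemannZeta (x : ℂ) ^ (2 * m) =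
              (riemannZeta x ^ 2) ^ (i : ℕ) * riemannZeta x ^ (2 * (m - i)) := by
            rw [← pow_mul, ← pow_add]
            congr 1
            omega
          rw [e1, zsmul_eq_mul, div_pow, div_pow]
          have hz2 : (riemannZeta (x : ℂ) ^ 2) ^ (i : ℕ) ≠ 0 := pow_ne_zero _ (pow_ne_zero _ hz0)
          field_simp
        rw [key, norm_mul, norm_pow]
        rw [neg_add, Real.rpow_add hT0] at hQs
        have h1 : ‖riemannZeta (x : ℂ)‖ ^ (2 * m) ≤ T := by
          refine le_trans (pow_le_pow_left₀ (norm_nonneg _) ((hM _ hxL).trans (le_abs_self M)) _) hTM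
        calc ‖riemannZeta (x : ℂ)‖ ^ (2 * m) * ‖Polynomial.aeval (t x / ξ) Q‖ ≤
              T * (T ^ (-B) * T ^ (-1 : ℝ)) := mul_le_mul h1 hQs (norm_nonneg _) hT0.le
          _ = T ^ (-B) := by
              rw [Real.rpow_neg_one]
              field_simp
  · have hne : ∀ z ∈ L, z ≠ 1 := fun z hz h => hL1 (h ▸ hz)
    have hne2 : ∀ z ∈ L, 2 * z ≠ 1 := by
      intro z hz h
      apply hL2
      have : z = 1 / 2 := by linear_combination h / 2
      rw [← this]
      exact hz
    obtain ⟨B, C, T₀, -, -, H⟩ := Pool.Agent.Y771.RP.mainS m N g d value L hL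
      (fun y z hz => by rw [value_eq]; exact Pool.Agent.X142.AZ.fB_analytic y (hne z hz) (hne2 z hz))
      (fun z hz => by rw [value_eq]; exact Pool.Agent.X142.AZ.locIndB z (hne z hz) (hne2 z hz)) A ε hε
    refine ⟨B, C, T₀, fun F _ _ hF ι ξ T hT X hX => ?_⟩
    have h1 := H F hF ι ξ T hT X (fun x hx => ⟨(hX x hx).1, (hX x hx).2⟩)
    refine le_trans (le_of_eq ?_) h1
    congr 2
    ext s
    constructor
    · rintro ⟨hX', P, hP1, hP2, u₀, hu₀, hu⟩
      exact ⟨⟨fun j => ⟨(hX _ (hX' j)).1, (hX _ (hX' j)).2⟩, P, hP1, hP2, u₀, hu₀, hu⟩, hX'⟩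
    · rintro ⟨⟨-, P, hP1, hP2, u₀, hu₀, hu⟩, hX'⟩
      exact ⟨hX', P, hP1, hP2, u₀, hu₀, hu⟩

end Pool.Agent.Results.MP_f1a024_nt.RationalArguments
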